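import Pool.Agent.KS6_59.PR.Pvdw

/-!
# Polynomial configurations with one more point at a prescribed height: a finite form on a grid
-/

set_option autoImplicit false
set_option maxHeartbeats 1000000

namespace Pool.Agent.KS6_59.PR

open Finset Pool.Agent.Results.MP_f16d24_co.InfiniteFields

variable {K : Type} [Field K]

/-- scaling of the heights -/
def sN {p : ℕ} (N : Fin p → ℤ) (s : K) (u : Fin p → K) : Fin p → K := fun l => s ^ N l * u l

/-- A finite form of the theorem, on a grid: the row `j` has a configuration with the steps `mon d`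
and there is one more point in the row `j + lau d`. -/
theorem grid {T : Set K} (hT : Good T) (κ : Type) [Finite κ] {ι : Type} (deg : ι → ℕ) (D : ℕ)
    (h1 : ∀ x, 1 ≤ deg x) (hD : ∀ x, deg x ≤ D) {k p : ℕ} (N : Fin p → ℤ)
    (mon : (Fin k → K) → (ι → K)) (lau : (Fin k → K) → (Fin p → K))
    (hmon : ∀ (s : K) (d : Fin k → K), mon (s • d) = sc deg s (mon d))
    (hlau : ∀ (s : K) (d : Fin k → K), s ≠ 0 → lau (s • d) = sN N s (lau d))
    (hsol : ∀ u : Fin p → K, (∀ l, u l ∈ T) → ∃ d : Fin k → K, (∀ i, d i ∈ T) ∧ lau d = u)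
    (A : Finset (ι → K)) (q : ι → K) : ∀ r : ℕ, ∃ (I : Finset (ι → K))
      (J : Finset (Fin p → K)) (Δ : Finset (Fin k → K)), (∀ d ∈ Δ, ∀ l, d l ∈ T) ∧
      ∀ (C : (ι → K) → (Fin p → K) → κ) (S : Finset κ), S.card ≤ r →
        (∀ i ∈ I, ∀ j ∈ J, C i j ∈ S) → ∃ (i : ι → K) (j : Fin p → K), ∃ d ∈ Δ,
          (∀ t ∈ A, C (i + t * mon d) j = C i j) ∧ C (i + q * mon d) (j + lau d) = C i j := by
  classical
  intro r
  induction r with
  | zero =>
    refine ⟨{0}, {0}, ∅, by simp, fun C S hS hC => ?_⟩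
    have h := hC 0 (by simp) 0 (by simp)
    rw [Finset.card_eq_zero.mp (Nat.le_zero.mp hS)] at h
    exact absurd h (Finset.notMem_empty _)
  | succ r ih =>
    obtain ⟨I, J, Δ, hΔ, H⟩ := ih
    choose j0 hj0 using fun l : Fin p => hT.shift (J.image (fun j => j l))
    have hj1 : ∀ j ∈ J, ∀ l, (j + j0) l ∈ T := fun j hj l =>
      hj0 l (j l) (Finset.mem_image.2 ⟨j, hj, rfl⟩)
    have hex : ∀ j : Fin p → K, ∃ d : Fin k → K, j ∈ J → ((∀ i, d i ∈ T) ∧ lau d = j + j0) := by
      intro j
      by_cases hj : j ∈ J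
      · obtain ⟨d, hd⟩ := hsol (j + j0) (hj1 j hj)
        exact ⟨d, fun _ => hd⟩
      · exact ⟨0, fun h => absurd h hj⟩
    choose μ hμ using hex
    let A' : Finset (ι → K) := insert 0 (I ∪
      ((I ×ˢ J).image (fun p => p.1 - q * mon (μ p.2)) ∪
      (I ×ˢ J ×ˢ A).image (fun p => p.1 - q * mon (μ p.2.1) + p.2.2 * mon (μ p.2.1))))
    obtain ⟨Sg, B, hSg, hvdw⟩ := pvdw hT κ deg D h1 hD A' ⟨0, Finset.mem_insert_self _ _⟩
    refine ⟨B, insert 0 ((J ×ˢ Sg).image (fun p => sN N p.2 (p.1 + j0))),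
      (Sg ×ˢ J).image (fun p => p.1 • μ p.2) ∪ (Sg ×ˢ Δ).image (fun p => p.1 • p.2), ?_, ?_⟩
    · intro d hd l
      rw [Finset.mem_union, Finset.mem_image, Finset.mem_image] at hd
      rcases hd with ⟨p, hp, rfl⟩ | ⟨p, hp, rfl⟩
      · rw [Finset.mem_product] at hp
        exact hT.mul _ (hSg _ hp.1) _ ((hμ _ hp.2).1 l)
      · rw [Finset.mem_product] at hp
        exact hT.mul _ (hSg _ hp.1) _ (hΔ _ hp.2 l)
    · intro C S hS hC
      obtain ⟨s, hs, z, col, hz⟩ := hvdw (fun i => C i 0)
      have hs0 : s ≠ 0 := hT.ne _ (hSg s hs)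
      have hcol : col ∈ S := by
        have h0 := hz 0 (Finset.mem_insert_self _ _)
        rw [← h0.2]
        exact hC _ h0.1 0 (Finset.mem_insert_self _ _)
      have hIA : ∀ i ∈ I, i ∈ A' := fun i hi =>
        Finset.mem_insert_of_mem (Finset.mem_union_left _ hi)
      by_cases hcase : ∃ i ∈ I, ∃ j ∈ J, C (z + sc deg s i) (sN N s (j + j0)) = col
      · obtain ⟨i, hi, j, hj, hij⟩ := hcase
        obtain ⟨hμ1, hμ2⟩ := hμ j hj
        have hi0 : C (z + sc deg s (i - q * mon (μ j))) 0 = col := by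
          refine (hz _ ?_).2
          exact Finset.mem_insert_of_mem (Finset.mem_union_right _ (Finset.mem_union_left _
            (Finset.mem_image.2 ⟨(i, j), by simp [hi, hj], rfl⟩)))
        refine ⟨z + sc deg s (i - q * mon (μ j)), 0, s • μ j,
          Finset.mem_union_left _ (Finset.mem_image.2
          ⟨(s, j), Finset.mem_product.2 ⟨hs, hj⟩, rfl⟩), ?_, ?_⟩
        · intro t ht
          rw [hi0]
          have h1 : i - q * mon (μ j) + t * mon (μ j) ∈ A' :=
            Finset.mem_insert_of_mem (Finset.mem_union_right _ (Finset.mem_union_right _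
            (Finset.mem_image.2 ⟨(i, j, t), by simp [hi, hj, ht], rfl⟩)))
          have h2 := (hz _ h1).2
          rw [← h2]
          congr 1
          rw [hmon, sc_add, ← sc_mul, add_assoc]
        · rw [hi0, ← hij, hlau _ _ hs0, hμ2, zero_add]
          congr 1
          rw [hmon, ← sc_mul, add_assoc, ← sc_add]
          congr 2
          ring
      · push Not at hcase
        obtain ⟨i, j, d, hd, h1, h2⟩ := H
          (fun i j => C (z + sc deg s i) (sN N s (j + j0))) (S.erase col)
          (by rw [Finset.card_erase_of_mem hcol]; omega)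
          (by
            intro i hi j hj
            rw [Finset.mem_erase]
            refine ⟨hcase i hi j hj, hC _ (hz i (hIA i hi)).1 _ ?_⟩
            exact Finset.mem_insert_of_mem (Finset.mem_image.2
              ⟨(j, s), Finset.mem_product.2 ⟨hj, hs⟩, rfl⟩))
        refine ⟨z + sc deg s i, sN N s (j + j0), s • d, Finset.mem_union_right _
          (Finset.mem_image.2 ⟨(s, d), Finset.mem_product.2 ⟨hs, hd⟩, rfl⟩), ?_, ?_⟩
        · intro t ht
          rw [← h1 t ht]
          congr 1
          rw [hmon, sc_add, ← sc_mul, add_assoc]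
        · rw [← h2, hmon, hlau _ _ hs0, sc_add, ← sc_mul, add_assoc]
          congr 1
          funext l
          simp only [sN, Pi.add_apply]
          ring

end Pool.Agent.KS6_59.PR
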