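import Pool.Graph.R_seed8.Y613.PJ.Pair
import Pool.Graph.R_seed8.Results.MP_f16d24_co.InfiniteFields

/-!
# Polynomial homothetic copies from the polynomial Hales-Jewett theorem
-/

set_option autoImplicit false
set_option maxHeartbeats 1000000

namespace Pool.Agent.KS6_59.PR

open Finset Pool.Agent.Results.MP_f16d24_co.InfiniteFields

variable {K : Type} [Field K]

/-- the factor of the place `i` -/
def fac {l : ℕ} (w : Fin l → K) (e : ℕ) (x : Fin l) (i : ℕ) (y : Fin l) : K :=
  if i = 0 then (if y = x then w y else 0) else if i < e then w y else (if y = x then 1 else 0)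

/-- the weight of a cell for the power `e` -/
def wt {D l : ℕ} (w : Fin l → K) (e : ℕ) (c : Fin D → Fin l) : K :=
  ∑ x : Fin l, ∏ i : Fin D, fac w e x i (c i)

theorem prod_pow_range (S : K) (e n : ℕ) (he : e ≤ n) :
    ∏ i ∈ range n, (if i < e then S else 1) = S ^ e := by
  classical
  rw [Finset.prod_ite, Finset.prod_const, Finset.prod_const_one, mul_one]
  congr 1
  have : (range n).filter (fun i => i < e) = range e := by
    ext i
    simp only [Finset.mem_filter, Finset.mem_range]
    omega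
  rw [this, card_range]

theorem sum_fac {l : ℕ} (w : Fin l → K) (e : ℕ) (γ : Finset (Fin l)) (x : Fin l) (i : ℕ) :
    ∑ y ∈ γ, fac w e x i y = if i = 0 then (if x ∈ γ then w x else 0) else
      if i < e then ∑ y ∈ γ, w y else (if x ∈ γ then 1 else 0) := by
  classical
  unfold fac
  split_ifs with h1 h2 h3 h4
  · rw [Finset.sum_ite_eq' γ x, if_pos h2]
  · rw [Finset.sum_ite_eq' γ x, if_neg h2]
  · rfl
  · rw [Finset.sum_ite_eq' γ x, if_pos h4]
  · rw [Finset.sum_ite_eq' γ x, if_neg h4]

/-- the sum of the weights over a cube is a power -/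
theorem wt_cube {D l : ℕ} (w : Fin l → K) (e : ℕ) (he : 1 ≤ e) (heD : e ≤ D)
    (γ : Finset (Fin l)) :
    ∑ c ∈ Fintype.piFinset (fun _ : Fin D => γ), wt w e c = (∑ i ∈ γ, w i) ^ e := by
  classical
  unfold wt
  rw [Finset.sum_comm]
  have h1 : ∀ x : Fin l, ∑ c ∈ Fintype.piFinset (fun _ : Fin D => γ),
      ∏ i : Fin D, fac w e x i (c i) = if x ∈ γ then w x * (∑ i ∈ γ, w i) ^ (e - 1) else 0 := by
    intro x
    have h2 := Finset.prod_univ_sum (fun _ : Fin D => γ) (fun (i : Fin D) y => fac w e x i y)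
    rw [← h2]
    simp only [sum_fac]
    obtain ⟨D', rfl⟩ : ∃ D', D = D' + 1 := ⟨D - 1, by omega⟩
    have h3 := Fin.prod_univ_eq_prod_range (fun i => if i = 0 then (if x ∈ γ then w x else 0) else
      if i < e then ∑ y ∈ γ, w y else (if x ∈ γ then 1 else 0)) (D' + 1)
    rw [h3, Finset.prod_range_succ']
    by_cases hx : x ∈ γ
    · simp only [hx, if_true, Nat.succ_ne_zero, if_false]
      rw [← prod_pow_range (∑ i ∈ γ, w i) (e - 1) D' (by omega), mul_comm]
      congr 1
      refine Finset.prod_congr rfl fun i _ => ?_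
      by_cases hi : i + 1 < e
      · rw [if_pos hi, if_pos (by omega)]
      · rw [if_neg hi, if_neg (by omega)]
    · simp [hx]
  rw [Finset.sum_congr rfl (fun x _ => h1 x), ← Finset.sum_filter]
  have h4 : (Finset.univ : Finset (Fin l)).filter (fun x => x ∈ γ) = γ := by
    ext x; simp
  rw [h4, ← Finset.sum_mul, ← pow_succ']
  congr 1
  omega

/-- scaling of the coordinate `x` by the power `deg x` -/
def sc {ι : Type} (deg : ι → ℕ) (s : K) (a : ι → K) : ι → K := fun x => s ^ deg x * a x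

theorem sc_add {ι : Type} (deg : ι → ℕ) (s : K) (a b : ι → K) :
    sc deg s (a + b) = sc deg s a + sc deg s b := by
  funext x
  simp [sc, mul_add]

theorem sc_mul {ι : Type} (deg : ι → ℕ) (s : K) (a b : ι → K) :
    sc deg s (a * b) = a * sc deg s b := by
  funext x
  simp only [sc, Pi.mul_apply]
  ring

/-- Polynomial homothetic copies with steps from a finite set of good steps. -/
theorem pvdw {T : Set K} (hT : Good T) (κ : Type) [Finite κ] {ι : Type} (deg : ι → ℕ)
    (D : ℕ) (h1 : ∀ x, 1 ≤ deg x) (hD : ∀ x, deg x ≤ D) (A : Finset (ι → K)) (hA : A.Nonempty) :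
    ∃ (Sg : Finset K) (B : Finset (ι → K)), (∀ s ∈ Sg, s ∈ T) ∧
      ∀ C : (ι → K) → κ, ∃ s ∈ Sg, ∃ (z : ι → K) (col : κ), ∀ a ∈ A,
        z + sc deg s a ∈ B ∧ C (z + sc deg s a) = col := by
  classical
  have : Nonempty A := ⟨⟨_, hA.choose_spec⟩⟩
  obtain ⟨l, H⟩ := Pool.Agent.Y613.PJ.exists_full (D + 1) (by omega) A κ
  obtain ⟨w, hw⟩ := hT.wt l
  let φ : ((Fin (D + 1) → Fin l) → A) → (ι → K) := fun v x =>
    ∑ c, wt w (deg x) c * (v c : ι → K) x
  refine ⟨((Finset.univ : Finset (Finset (Fin l))).filter (fun S => S.Nonempty)).image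
    (fun S => ∑ i ∈ S, w i), (Finset.univ : Finset ((Fin (D + 1) → Fin l) → A)).image φ, ?_, ?_⟩
  · intro s hs
    rw [Finset.mem_image] at hs
    obtain ⟨S, hS, rfl⟩ := hs
    exact hw S (Finset.mem_filter.1 hS).2
  · intro C
    obtain ⟨a, γ, col, hγ, hc⟩ := H (fun v => C (φ v))
    obtain ⟨g, hg⟩ : ∃ g : Finset (Fin l), ∀ i, i ∈ g ↔ i ∈ γ :=
      ⟨Finset.univ.filter (fun i => i ∈ γ), by simp⟩
    have hgn : g.Nonempty := by
      obtain ⟨i, hi⟩ := hγ
      exact ⟨i, (hg i).2 hi⟩
    have hcube : ∀ c : Fin (D + 1) → Fin l, c ∈ Pool.Agent.Y613.PJ.cubeSet (D + 1) γ ↔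
        c ∈ Fintype.piFinset (fun _ : Fin (D + 1) => g) := by
      intro c
      rw [Fintype.mem_piFinset]
      simp only [hg]
      rfl
    refine ⟨∑ i ∈ g, w i, Finset.mem_image.2 ⟨g, by simp [hgn], rfl⟩,
      fun x => ∑ c : Fin (D + 1) → Fin l,
        if c ∈ Fintype.piFinset (fun _ : Fin (D + 1) => g) then 0
          else wt w (deg x) c * (a c : ι → K) x, col, ?_⟩
    intro s hs
    have key : φ (fun x => if x ∈ Pool.Agent.Y613.PJ.cubeSet (D + 1) γ then ⟨s, hs⟩ else a x) =
        (fun x => ∑ c : Fin (D + 1) → Fin l,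
          if c ∈ Fintype.piFinset (fun _ : Fin (D + 1) => g) then 0
            else wt w (deg x) c * (a c : ι → K) x) + sc deg (∑ i ∈ g, w i) s := by
      funext x
      show ∑ c, wt w (deg x) c * ((if c ∈ Pool.Agent.Y613.PJ.cubeSet (D + 1) γ then
        (⟨s, hs⟩ : A) else a c : A) : ι → K) x = _
      have h2 : ∀ c : Fin (D + 1) → Fin l, wt w (deg x) c *
          ((if c ∈ Pool.Agent.Y613.PJ.cubeSet (D + 1) γ then (⟨s, hs⟩ : A) else a c : A) : ι → K) x
          = (if c ∈ Fintype.piFinset (fun _ : Fin (D + 1) => g) then 0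
            else wt w (deg x) c * (a c : ι → K) x) +
            (if c ∈ Fintype.piFinset (fun _ : Fin (D + 1) => g) then wt w (deg x) c * s x
              else 0) := by
        intro c
        by_cases h : c ∈ Fintype.piFinset (fun _ : Fin (D + 1) => g)
        · rw [if_pos ((hcube c).2 h), if_pos h, if_pos h, zero_add]
        · rw [if_neg (fun h' => h ((hcube c).1 h')), if_neg h, if_neg h, add_zero]
      rw [Finset.sum_congr rfl (fun c _ => h2 c), Finset.sum_add_distrib]
      simp only [Pi.add_apply, sc]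
      congr 1
      rw [← Finset.sum_filter, ← Finset.sum_mul]
      congr 1
      have h3 : (Finset.univ : Finset (Fin (D + 1) → Fin l)).filter
          (fun c => c ∈ Fintype.piFinset (fun _ : Fin (D + 1) => g)) =
          Fintype.piFinset (fun _ : Fin (D + 1) => g) := by
        ext c; simp
      rw [h3]
      exact wt_cube w (deg x) (h1 x) ((hD x).trans (Nat.le_succ D)) g
    refine ⟨?_, ?_⟩
    · rw [← key]
      exact Finset.mem_image.2 ⟨_, Finset.mem_univ _, rfl⟩
    · rw [← key]
      exact hc ⟨s, hs⟩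

end Pool.Agent.KS6_59.PR
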