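import Pool.Agent.KS6_59.PR.Grid

/-!
# Polynomials and sums of Laurent monomials
-/

set_option autoImplicit false
set_option maxHeartbeats 1000000

namespace Pool.Agent.KS6_59.PR

open Finset Pool.Agent.Results.MP_f16d24_co.InfiniteFields

variable {K : Type} [Field K]

theorem Good.prod {T : Set K} (hT : Good T) {ι : Type} (S : Finset ι) (f : ι → K)
    (hf : ∀ i ∈ S, f i ∈ T) : ∏ i ∈ S, f i ∈ T := by
  classical
  induction S using Finset.induction_on with
  | empty => simpa using hT.one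
  | insert a S ha ih =>
    rw [Finset.prod_insert ha]
    exact hT.mul _ (hf a (Finset.mem_insert_self _ _)) _
      (ih fun i hi => hf i (Finset.mem_insert_of_mem hi))

/-- The Laurent monomials can be prescribed. -/
theorem solve {T : Set K} (hT : Good T) {k p : ℕ} (ν : Fin p → Fin k → ℤ)
    (hν : ∀ b : Fin p → ℤ, ∃ a : Fin k → ℤ, ∀ l, ∑ i, ν l i * a i = b l)
    (u : Fin p → K) (hu : ∀ l, u l ∈ T) :
    ∃ d : Fin k → K, (∀ i, d i ∈ T) ∧ (fun l => ∏ i, d i ^ ν l i) = u := by
  classical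
  choose m hm using fun l' : Fin p => hν (fun l => if l = l' then 1 else 0)
  have hu0 : ∀ l, u l ≠ 0 := fun l => hT.ne _ (hu l)
  refine ⟨fun i => ∏ l', u l' ^ m l' i, fun i => Good.prod hT _ _ fun l' _ => hT.zpow (hu l') _,
    ?_⟩
  funext l
  have h1 : ∀ i, (∏ l', u l' ^ m l' i) ^ ν l i = ∏ l', u l' ^ (ν l i * m l' i) := by
    intro i
    rw [← Finset.prod_zpow]
    refine Finset.prod_congr rfl fun l' _ => ?_
    rw [← zpow_mul, mul_comm]
  rw [Finset.prod_congr rfl (fun i _ => h1 i), Finset.prod_comm]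
  have h2 : ∀ l', ∏ i, u l' ^ (ν l i * m l' i) = if l = l' then u l' else 1 := by
    intro l'
    rw [prod_zpow_sum _ _ (hu0 l'), hm l' l]
    split_ifs <;> simp
  rw [Finset.prod_congr rfl (fun l' _ => h2 l')]
  simp

/-- The form of the theorem which is used: the colouring is scaled by `u`. -/
theorem scaled {T : Set K} (hT : Good T) (κ : Type) [Finite κ] {k p : ℕ} (ν : Fin p → Fin k → ℤ)
    (hν : ∀ b : Fin p → ℤ, ∃ a : Fin k → ℤ, ∀ l, ∑ i, ν l i * a i = b l)
    (F : Finset (MvPolynomial (Fin k) K)) (Q : MvPolynomial (Fin k) K)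
    (hP : ∀ P ∈ F, MvPolynomial.constantCoeff P = 0) (hQ : MvPolynomial.constantCoeff Q = 0) :
    ∃ Δ : Finset (Fin k → K), (∀ d ∈ Δ, ∀ l, d l ∈ T) ∧
      ∀ (c : K → κ) (e : Fin p → K) (u : K), u ≠ 0 → ∃ x : K, ∃ d ∈ Δ,
        (∀ P ∈ F, c (x + MvPolynomial.eval (fun i => u * d i) P) = c x) ∧
        c (x + MvPolynomial.eval (fun i => u * d i) Q + ∑ l, e l * ∏ i, (u * d i) ^ ν l i)
          = c x := by
  classical
  have := Fintype.ofFinite κ
  -- the monomials
  let M : Finset (Fin k →₀ ℕ) := (insert Q F).biUnion MvPolynomial.support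
  have hall : ∀ P ∈ insert Q F, MvPolynomial.constantCoeff P = 0 := by
    intro P hP'
    rcases Finset.mem_insert.1 hP' with rfl | h
    · exact hQ
    · exact hP P h
  let deg : M → ℕ := fun α => ∑ i, α.1 i
  have hdeg1 : ∀ α : M, 1 ≤ deg α := by
    rintro ⟨α, hα⟩
    by_contra hlt
    have h0 : ∑ i, α i = 0 := by
      have : ¬ 1 ≤ ∑ i, α i := hlt
      omega
    have h1 : α = 0 := by
      ext i
      exact (Finset.sum_eq_zero_iff.1 h0) i (Finset.mem_univ _)
    obtain ⟨P, hP1, hP2⟩ := Finset.mem_biUnion.1 hα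
    rw [MvPolynomial.mem_support_iff, h1] at hP2
    exact hP2 (by have := hall P hP1; rwa [MvPolynomial.constantCoeff_eq] at this)
  let D : ℕ := ∑ α : M, deg α
  have hD : ∀ α : M, deg α ≤ D := fun α =>
    Finset.single_le_sum (f := deg) (fun _ _ => Nat.zero_le _) (Finset.mem_univ α)
  let mon : (Fin k → K) → (M → K) := fun d α => ∏ i, d i ^ α.1 i
  let lau : (Fin k → K) → (Fin p → K) := fun d l => ∏ i, d i ^ ν l i
  let N : Fin p → ℤ := fun l => ∑ i, ν l i
  have hmon : ∀ (s : K) (d : Fin k → K), mon (s • d) = sc deg s (mon d) := by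
    intro s d
    funext α
    simp only [mon, sc, deg, Pi.smul_apply, smul_eq_mul, mul_pow, Finset.prod_mul_distrib,
      Finset.prod_pow_eq_pow_sum]
  have hlau : ∀ (s : K) (d : Fin k → K), s ≠ 0 → lau (s • d) = sN N s (lau d) := by
    intro s d hs
    funext l
    simp only [lau, sN, N, Pi.smul_apply, smul_eq_mul, mul_zpow, Finset.prod_mul_distrib]
    rw [prod_zpow_sum _ _ hs]
  have heval : ∀ P ∈ insert Q F, ∀ d : Fin k → K,
      MvPolynomial.eval d P = ∑ α : M, P.coeff α.1 * mon d α := by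
    intro P hP' d
    rw [MvPolynomial.eval_eq']
    have h1 : ∑ α : M, P.coeff α.1 * mon d α =
        ∑ α ∈ M, P.coeff α * ∏ i, d i ^ α i := by
      rw [← Finset.sum_coe_sort M (fun α => P.coeff α * ∏ i, d i ^ α i)]
    rw [h1]
    refine Finset.sum_subset (Finset.subset_biUnion_of_mem MvPolynomial.support hP') ?_
    intro α _ hα
    rw [MvPolynomial.notMem_support_iff.1 hα, zero_mul]
  let co : MvPolynomial (Fin k) K → (M → K) := fun P α => P.coeff α.1
  obtain ⟨I, J, Δ, hΔ, H⟩ := grid hT κ deg D hdeg1 hD N mon lau hmon hlau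
    (fun u hu => solve hT ν hν u hu) (F.image co) (co Q) (Fintype.card κ)
  refine ⟨Δ, hΔ, fun c e u hu => ?_⟩
  obtain ⟨i, j, d, hd, h1, h2⟩ := H
    (fun i j => c (∑ α, sc deg u i α + ∑ l, e l * sN N u j l))
    Finset.univ (le_of_eq (Finset.card_univ)) (fun _ _ _ _ => Finset.mem_univ _)
  have hud : (fun i => u * d i) = u • d := by
    funext i
    simp
  have key : ∀ P ∈ insert Q F, ∑ α, sc deg u (i + co P * mon d) α =
      ∑ α, sc deg u i α + MvPolynomial.eval (fun i => u * d i) P := by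
    intro P hP'
    rw [heval P hP', hud, hmon, ← Finset.sum_add_distrib]
    refine Finset.sum_congr rfl fun α _ => ?_
    simp only [sc, Pi.add_apply, Pi.mul_apply, co]
    ring
  have key2 : ∑ l, e l * sN N u (j + lau d) l =
      ∑ l, e l * sN N u j l + ∑ l, e l * ∏ i, (u * d i) ^ ν l i := by
    have h3 : ∀ l, ∏ i, (u * d i) ^ ν l i = sN N u (lau d) l := by
      intro l
      rw [← hlau u d hu]
      rfl
    rw [← Finset.sum_add_distrib]
    refine Finset.sum_congr rfl fun l _ => ?_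
    rw [h3 l]
    simp only [sN, Pi.add_apply]
    ring
  refine ⟨∑ α, sc deg u i α + ∑ l, e l * sN N u j l, d, hd, ?_, ?_⟩
  · intro P hP'
    rw [← h1 (co P) (Finset.mem_image.2 ⟨P, hP', rfl⟩), key P (Finset.mem_insert_of_mem hP')]
    congr 1
    ring
  · rw [← h2, key Q (Finset.mem_insert_self _ _), key2]
    congr 1
    ring

end Pool.Agent.KS6_59.PR
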